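import Pool.Agent.TS.FlagTop

/-!
For `G = SL(2,ℝ) × SL(2,ℝ)` and `Θ = Δ` there is a transverse circle in `G / P_Θ` which is not the
`Θ`-limit set of any `Θ`-uniformly regular quasi-isometric embedding of a quasi-geodesic metric
space.
-/

namespace Pool.Agent.Results.MP_02cffa_gt.NotALimitSet

open Pool.Agent.TS
open UpperHalfPlane Filter Topology Matrix OnePoint
open scoped ComplexConjugate

universe u

/-- First coordinate map. -/
noncomputable def p1 {Z : Type u} (g : Z → G) (z : Z) : ℍ := (g z).1 • I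

/-- Second coordinate map. -/
noncomputable def p2 {Z : Type u} (g : Z → G) (z : Z) : ℍ := (g z).2 • I

lemma exists_Cartan (g : G) : ∃ k k' : G, Cartan g k k' (dist (g.1 • I) I, dist (g.2 • I) I) := by
  obtain ⟨k1, hk1, k1', hk1', e1⟩ := exists_cartan g.1
  obtain ⟨k2, hk2, k2', hk2', e2⟩ := exists_cartan g.2
  exact ⟨(k1, k2), (k1', k2'), hk1, hk2, hk1', hk2', dist_nonneg, dist_nonneg, Prod.ext e1 e2⟩

lemma Cartan.d1 {g k k' : G} {t : ℝ × ℝ} (h : Cartan g k k' t) : dist (g.1 • I) I = t.1 :=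
  cartan_dist h.k1 h.k1' h.t1 (congrArg Prod.fst h.eq)

lemma Cartan.d2 {g k k' : G} {t : ℝ × ℝ} (h : Cartan g k k' t) : dist (g.2 • I) I = t.2 :=
  cartan_dist h.k2 h.k2' h.t2 (congrArg Prod.snd h.eq)

lemma Cartan.c1 {g k k' : G} {t : ℝ × ℝ} (h : Cartan g k k' t) :
    Cp I (g.1 • I : ℍ) = bdry k.1 * (Real.tanh (t.1 / 2) : ℂ) :=
  cartan_Cp h.k1 h.k1' (congrArg Prod.fst h.eq)

lemma Cartan.c2 {g k k' : G} {t : ℝ × ℝ} (h : Cartan g k k' t) :
    Cp I (g.2 • I : ℍ) = bdry k.2 * (Real.tanh (t.2 / 2) : ℂ) :=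
  cartan_Cp h.k2 h.k2' (congrArg Prod.snd h.eq)

lemma tendsto_tanh {t : ℕ → ℝ} (h : Tendsto t atTop atTop) :
    Tendsto (fun m => (Real.tanh (t m / 2) : ℂ)) atTop (𝓝 1) := by
  have h0 : Tendsto (fun m => Real.exp (-(t m))) atTop (𝓝 0) :=
    Real.tendsto_exp_neg_atTop_nhds_zero.comp h
  have h1 : Tendsto (fun m => Real.tanh (t m / 2)) atTop (𝓝 1) := by
    have h2 : Tendsto (fun m => (1 - Real.exp (-(t m))) / (1 + Real.exp (-(t m)))) atTop
        (𝓝 ((1 - 0) / (1 + 0))) := (h0.const_sub 1).div (h0.const_add 1) (by norm_num)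
    rw [sub_zero, add_zero, div_one] at h2
    refine h2.congr fun m => ?_
    rw [Real.tanh_eq_sinh_div_cosh, Real.sinh_eq, Real.cosh_eq,
      div_div_div_cancel_right₀ two_ne_zero]
    have e1 : Real.exp (-(t m)) = Real.exp (-(t m / 2)) / Real.exp (t m / 2) := by
      rw [← Real.exp_sub]; congr 1; ring
    have h3 := Real.exp_pos (t m / 2)
    rw [e1]
    field_simp
  have h4 := (Complex.continuous_ofReal.tendsto 1).comp h1
  rw [Complex.ofReal_one] at h4
  exact h4

/-- Convergence to a real boundary point from convergence in disc coordinates. -/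
lemma tendsto_of_Cp {w : ℕ → ℍ} {t : ℝ}
    (h : Tendsto (fun m => Cp I (w m : ℂ)) atTop (𝓝 (Cp I (t : ℂ)))) :
    Tendsto (fun m => ((w m : ℍ) : ℂ)) atTop (𝓝 (t : ℂ)) := by
  have hne : 1 - Cp I (t : ℂ) ≠ 0 := sub_ne_zero.2 (Ne.symm (CpI_ne_one t))
  have h1 : Tendsto (fun m => Complex.I * (1 + Cp I (w m : ℂ)) / (1 - Cp I (w m : ℂ))) atTop
      (𝓝 (Complex.I * (1 + Cp I (t : ℂ)) / (1 - Cp I (t : ℂ)))) :=
    ((h.const_add 1).const_mul Complex.I).div (h.const_sub 1) hne
  have key : ∀ z : ℂ, z + Complex.I ≠ 0 →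
      Complex.I * (1 + Cp I z) / (1 - Cp I z) = z := by
    intro z hz
    have e1 : 1 + Cp I z = 2 * z / (z + Complex.I) := by
      rw [CpI]; field_simp; ring
    have e2 : 1 - Cp I z = 2 * Complex.I / (z + Complex.I) := by
      rw [CpI]; field_simp; ring
    have hI := Complex.I_ne_zero
    rw [e1, e2, ← mul_div_assoc, div_div_div_cancel_right₀ hz]
    field_simp
  rw [key _ (t_add_I_ne t)] at h1
  refine h1.congr fun m => ?_
  exact key _ (z_add_I_ne _)

theorem result : ∃ Λ : Set Flag, IsTransverseSphere Λ ∧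
    ∀ (Z : Type u) [MetricSpace Z], QuasiGeodesicSpace Z →
      ¬ ∃ g : Z → G, RegularQI g ∧ limitSet g = Λ := by
  refine ⟨Lam, Lam_sphere, ?_⟩
  rintro Z _ hZ ⟨g, ⟨L, A, hL, hA, hreg⟩, hlim⟩
  -- distances
  have hdist1 : ∀ x y, dist (p1 g x) (p1 g y) = dist (((g x)⁻¹ * g y).1 • I) I := by
    intro x y
    unfold p1
    have e : ((g x)⁻¹ * g y).1 • I = (g x).1⁻¹ • ((g y).1 • I) := by
      rw [← mul_smul]; rfl
    rw [e, dist_comm, ← dist_smul (g x).1 ((g x).1⁻¹ • ((g y).1 • I)) I, smul_inv_smul]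
  have hdist2 : ∀ x y, dist (p2 g x) (p2 g y) = dist (((g x)⁻¹ * g y).2 • I) I := by
    intro x y
    unfold p2
    have e : ((g x)⁻¹ * g y).2 • I = (g x).2⁻¹ • ((g y).2 • I) := by
      rw [← mul_smul]; rfl
    rw [e, dist_comm, ← dist_smul (g x).2 ((g x).2⁻¹ • ((g y).2 • I)) I, smul_inv_smul]
  have hbounds : ∀ x y, dist (p1 g x) (p1 g y) ≤ L * dist x y + A ∧
      dist (p2 g x) (p2 g y) ≤ L * dist x y + A ∧
      dist x y / L - A ≤ dist (p1 g x) (p1 g y) ∧
      dist x y / L - A ≤ dist (p2 g x) (p2 g y) := by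
    intro x y
    obtain ⟨k, k', hC⟩ := exists_Cartan ((g x)⁻¹ * g y)
    rw [← hdist1, ← hdist2] at hC
    obtain ⟨h1, h2, h3⟩ := hreg x y k k' _ hC
    simp only at h1 h2 h3
    have a1 : dist (p1 g x) (p1 g y) ≤
        √(dist (p1 g x) (p1 g y) ^ 2 + dist (p2 g x) (p2 g y) ^ 2) := by
      apply Real.le_sqrt_of_sq_le
      nlinarith [sq_nonneg (dist (p2 g x) (p2 g y))]
    have a2 : dist (p2 g x) (p2 g y) ≤
        √(dist (p1 g x) (p1 g y) ^ 2 + dist (p2 g x) (p2 g y) ^ 2) := by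
      apply Real.le_sqrt_of_sq_le
      nlinarith [sq_nonneg (dist (p1 g x) (p1 g y))]
    rw [inv_mul_eq_div] at h2 h3
    exact ⟨a1.trans h1, a2.trans h1, h2, h3⟩
  -- `Z` is nonempty
  have hmemΛ : ∀ y, gam y ∈ limitSet g := fun y => by rw [hlim]; exact ⟨y, rfl⟩
  obtain ⟨z₀⟩ : Nonempty Z := by
    obtain ⟨z, _⟩ := hmemΛ ∞
    exact ⟨z 0⟩
  -- unboundedness of the coordinates along sequences leaving bounded sets
  have hunb : ∀ z : ℕ → Z, Tendsto z atTop (Bornology.cobounded Z) →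
      Tendsto (fun m => dist (p1 g (z m)) I) atTop atTop := by
    intro z hz
    have h1 : Tendsto (fun m => dist (z m) z₀) atTop atTop :=
      (Metric.tendsto_dist_right_cobounded_atTop z₀).comp hz
    have h2 : Tendsto (fun m => dist (z m) z₀ / L - A - dist (p1 g z₀) I) atTop atTop := by
      apply tendsto_atTop_add_const_right
      apply tendsto_atTop_add_const_right
      exact h1.atTop_div_const (by linarith)
    apply tendsto_atTop_mono _ h2
    intro m
    have h3 := (hbounds (z m) z₀).2.2.1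
    have h4 : dist (p1 g (z m)) (p1 g z₀) ≤ dist (p1 g (z m)) I + dist (p1 g z₀) I :=
      dist_triangle_right _ _ _
    linarith
  -- every real boundary point is approached by the first coordinate
  have hB : ∀ t : ℝ, ∀ ε > 0, ∃ x, ‖((p1 g x : ℍ) : ℂ) - t‖ < ε := by
    intro t ε hε
    obtain ⟨y, rfl⟩ := hf_surj t
    obtain ⟨z, k, k', τ, hz, hC, hk⟩ := hmemΛ (y : OnePoint ℝ)
    have h1 : Tendsto (fun m => beta (k m : Flag)) atTop (𝓝 (beta (gam (y : OnePoint ℝ)))) :=
      (beta_cont.tendsto _).comp hk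
    rw [beta_gam, hOne_coe, cay_coe] at h1
    have h2 : Tendsto (fun m => bdry (k m).1) atTop (𝓝 (Cp I ((hf y : ℝ) : ℂ))) :=
      (continuous_fst.tendsto _).comp h1
    have h3 : Tendsto (fun m => (τ m).1) atTop atTop := by
      refine (hunb z hz).congr fun m => ?_
      exact (Cartan.d1 (hC m).1)
    have h4 : Tendsto (fun m => Cp I (p1 g (z m) : ℂ)) atTop (𝓝 (Cp I ((hf y : ℝ) : ℂ))) := by
      have := h2.mul (tendsto_tanh h3)
      rw [mul_one] at this
      refine this.congr fun m => ?_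
      exact (Cartan.c1 (hC m).1).symm
    have h5 := tendsto_of_Cp h4
    obtain ⟨m, hm⟩ := (Metric.tendsto_atTop.1 h5 ε hε)
    refine ⟨z m, ?_⟩
    rw [← Complex.dist_eq]
    exact hm m le_rfl
  -- coarse surjectivity and the main estimate
  have : Nonempty Z := ⟨z₀⟩
  obtain ⟨D₀, hD⟩ := coarse_surj hZ hL hA (fun x y => (hbounds x y).1)
    (fun x y => (hbounds x y).2.2.1) hB
  obtain ⟨z, η, M, q, hM, hq0, hq1, hz1, hz1', hz2', hz2, hη⟩ := main_est hL hA
    (fun x y => (hbounds x y).1) (fun x y => (hbounds x y).2.2.1)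
    (fun x y => (hbounds x y).2.1) (fun x y => (hbounds x y).2.2.2) hD
  apply contra hM hq0 hq1 hη
  intro y
  set t := hf y with ht
  -- the sequence `z t` leaves every bounded set
  have hcob : Tendsto (z t) atTop (Bornology.cobounded Z) := by
    rw [← Metric.tendsto_dist_right_atTop_iff z₀]
    have h1 : Tendsto (fun m => (dist (p1 g (z t m)) I - dist (p1 g z₀) I - A) / L) atTop atTop := by
      apply Tendsto.atTop_div_const (by linarith)
      apply tendsto_atTop_add_const_right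
      apply tendsto_atTop_add_const_right
      exact hz1' t
    apply tendsto_atTop_mono _ h1
    intro m
    have h2 := (hbounds (z t m) z₀).1
    have h3 := dist_triangle (p1 g (z t m)) (p1 g z₀) I
    rw [div_le_iff₀ (by linarith)]
    linarith
  -- Cartan decompositions
  choose k k' hC using fun m => exists_Cartan (g (z t m))
  have h1 : Tendsto (fun m => bdry (k m).1) atTop (𝓝 (Cp I (t : ℂ))) := by
    have a1 : Tendsto (fun m => Cp I (p1 g (z t m) : ℂ)) atTop (𝓝 (Cp I (t : ℂ))) :=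
      (Cp_contAt I t).tendsto.comp (hz1 t)
    have a2 := tendsto_tanh (hz1' t)
    have a3 := a1.div a2 one_ne_zero
    rw [div_one] at a3
    refine a3.congr' ?_
    filter_upwards [(hz1' t).eventually (eventually_gt_atTop 0)] with m hm
    have a4 := Cartan.c1 (hC m)
    have a5 : (Real.tanh (dist (p1 g (z t m)) I / 2) : ℂ) ≠ 0 := by
      have : 0 < Real.tanh (dist (p1 g (z t m)) I / 2) := by
        rw [Real.tanh_eq_sinh_div_cosh]
        exact div_pos (Real.sinh_pos_iff.2 (by positivity)) (Real.cosh_pos _)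
      exact_mod_cast this.ne'
    show Cp I (p1 g (z t m) : ℂ) / (Real.tanh (dist (p1 g (z t m)) I / 2) : ℂ) = bdry (k m).1
    rw [div_eq_iff a5]
    exact a4
  have h2 : Tendsto (fun m => bdry (k m).2) atTop (𝓝 (η t)) := by
    have a2 := tendsto_tanh (hz2' t)
    have a3 := (hz2 t).div a2 one_ne_zero
    rw [div_one] at a3
    refine a3.congr' ?_
    filter_upwards [(hz2' t).eventually (eventually_gt_atTop 0)] with m hm
    have a4 := Cartan.c2 (hC m)
    have a5 : (Real.tanh (dist (p2 g (z t m)) I / 2) : ℂ) ≠ 0 := by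
      have : 0 < Real.tanh (dist (p2 g (z t m)) I / 2) := by
        rw [Real.tanh_eq_sinh_div_cosh]
        exact div_pos (Real.sinh_pos_iff.2 (by positivity)) (Real.cosh_pos _)
      exact_mod_cast this.ne'
    show Cp I (p2 g (z t m) : ℂ) / (Real.tanh (dist (p2 g (z t m)) I / 2) : ℂ) = bdry (k m).2
    rw [div_eq_iff a5]
    exact a4
  have h3 : Tendsto (fun m => beta (k m : Flag)) atTop (𝓝 (Cp I (t : ℂ), η t)) :=
    h1.prodMk_nhds h2
  -- the limit is a point of the flag manifold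
  obtain ⟨x, hx⟩ : (Cp I (t : ℂ), η t) ∈ Set.range beta :=
    beta_emb.isClosed_range.mem_of_tendsto h3 (Eventually.of_forall fun m => ⟨_, rfl⟩)
  rw [← hx] at h3
  have h4 : Tendsto (fun m => (k m : Flag)) atTop (𝓝 x) :=
    beta_emb.isInducing.tendsto_nhds_iff.2 h3
  -- shift the sequence
  obtain ⟨N, hN⟩ : ∃ N, ∀ m ≥ N, 0 < dist (p1 g (z t m)) I ∧ 0 < dist (p2 g (z t m)) I :=
    eventually_atTop.1 (((hz1' t).eventually (eventually_gt_atTop 0)).and
      ((hz2' t).eventually (eventually_gt_atTop 0)))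
  have hxlim : x ∈ limitSet g := by
    refine ⟨fun m => z t (m + N), fun m => k (m + N), fun m => k' (m + N),
      fun m => (dist ((g (z t (m + N))).1 • I) I, dist ((g (z t (m + N))).2 • I) I), ?_, ?_, ?_⟩
    · exact hcob.comp (tendsto_add_atTop_nat N)
    · intro m
      exact ⟨hC (m + N), (hN (m + N) (by omega)).1, (hN (m + N) (by omega)).2⟩
    · exact h4.comp (tendsto_add_atTop_nat N)
  rw [hlim] at hxlim
  obtain ⟨y', hy'⟩ := hxlim
  rw [← hy', beta_gam] at hx
  have e1 : cay (hOne y') = cay (hOne (y : OnePoint ℝ)) := by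
    rw [hOne_coe, cay_coe]
    exact congrArg Prod.fst hx
  have e2 : y' = (y : OnePoint ℝ) := hOne.injective (cay_inj e1)
  have e3 := congrArg Prod.snd hx
  simp only at e3
  rw [← e3, e2, cay_coe]

end Pool.Agent.Results.MP_02cffa_gt.NotALimitSet
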